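import Mathlib
import Pool.Agent.W702.CoHopf.Main
import Pool.Agent.TH58.CoHopfFP

/-!
A finitely presented co-hopfian group with a finitely presented subgroup of index two that is
not co-hopfian.

The group is `(C_3 * C_5) ⋊ C_2`, where `C_2` inverts the elements of both factors, and the
subgroup is `C_3 * C_5`.
-/

set_option autoImplicit false

namespace Pool.Agent.Results.MP_ce3880_al.FiniteIndexSubgroupFP

open Pool.Agent.W702.CoHopf

/-- There is a finitely presented group `G`, each of whose injective endomorphisms is surjective,
with a finitely presented subgroup `H` of index two that has an injective endomorphism which is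
not surjective. -/
theorem result : ∃ (G : Type) (_ : Group G) (H : Subgroup G),
    Group.IsFinitelyPresented G ∧ Group.IsFinitelyPresented H ∧ H.index = 2 ∧
    (∀ f : G →* G, Function.Injective f → Function.Surjective f) ∧
    ∃ f : H →* H, Function.Injective f ∧ ¬ Function.Surjective f := by
  refine ⟨G, inferInstance, H, Pool.Agent.TH58.CoHopfFP.fp_G, Pool.Agent.TH58.CoHopfFP.fp_H,
    index_H, coHopfian_G, ?_⟩
  have h := not_coHopfian_H
  unfold CoHopfian at h
  push Not at h
  exact h

end Pool.Agent.Results.MP_ce3880_al.FiniteIndexSubgroupFP
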